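import Pool.Agent.Lib.MP_de44a4_nt.Defs

/-! # MP_de44a4_nt: sums of two figurate primes neither of which is a prime (helper34) -/

set_option autoImplicit false

namespace FigComp

open FigSum Finset

private theorem choose_mono {m i j : ℕ} (hij : i ≤ j) (hj : 2 * j ≤ m) :
    m.choose i ≤ m.choose j := by
  induction j, hij using Nat.le_induction with
  | base => exact le_rfl
  | succ j hij ih =>
    exact (ih (by omega)).trans (Nat.choose_le_succ_of_lt_half_left (by omega))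

private theorem pow_choose (m r : ℕ) : (m + 1 - r) ^ r ≤ r.factorial * m.choose r := by
  rw [← Nat.descFactorial_eq_factorial_mul_choose]
  exact m.pow_sub_le_descFactorial r

private theorem two_pow_le_choose (j : ℕ) : ∀ m : ℕ, 2 * j ≤ m → 2 ^ j ≤ m.choose j := by
  induction j with
  | zero => intro m _; simp
  | succ j ih =>
    intro m hm
    obtain ⟨n, rfl⟩ : ∃ n, m = n + 1 := ⟨m - 1, by omega⟩
    have h1 := ih n (by omega)
    have h2 : (n + 1) * n.choose j = (n + 1).choose (j + 1) * (j + 1) := Nat.add_one_mul_choose_eq n j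
    have h3 : 2 * (j + 1) * n.choose j ≤ (n + 1) * n.choose j := Nat.mul_le_mul_right _ hm
    have h4 : (2 * n.choose j) * (j + 1) ≤ (n + 1).choose (j + 1) * (j + 1) := by
      rw [← h2]; refine le_trans (le_of_eq (by ring)) h3
    have h5 := Nat.le_of_mul_le_mul_right h4 (Nat.succ_pos j)
    rw [pow_succ]
    omega

private theorem log_le (x : ℕ) (hx : 2 ≤ x) : Real.log x ≤ 2 * √x ∧
    (Real.log x) ^ 2 ≤ 16 * √x ∧ 1 / 2 ≤ Real.log x := by
  have hx0 : (0 : ℝ) < x := by exact_mod_cast (by omega : 0 < x)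
  have hx1 : (1 : ℝ) ≤ x := by exact_mod_cast (by omega : 1 ≤ x)
  set r : ℝ := √x with hr
  have hr0 : 0 < r := Real.sqrt_pos.2 hx0
  have hr2 : r ^ 2 = x := Real.sq_sqrt hx0.le
  set t : ℝ := √r with ht
  have ht0 : 0 < t := Real.sqrt_pos.2 hr0
  have ht2 : t ^ 2 = r := Real.sq_sqrt hr0.le
  have h1 : Real.log x = 2 * Real.log r := by
    rw [← hr2, Real.log_pow]; norm_num
  have h2 : Real.log r = 2 * Real.log t := by
    rw [← ht2, Real.log_pow]; norm_num
  have h3 : Real.log r ≤ r := (Real.log_le_sub_one_of_pos hr0).trans (by linarith)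
  have h4 : Real.log t ≤ t := (Real.log_le_sub_one_of_pos ht0).trans (by linarith)
  have h5 : 0 ≤ Real.log x := Real.log_nonneg hx1
  refine ⟨by linarith, ?_, ?_⟩
  · have h6 : Real.log x ≤ 4 * t := by linarith
    have h7 : (Real.log x) ^ 2 ≤ (4 * t) ^ 2 := by
      gcongr
    nlinarith
  · have h8 : Real.log 2 ≤ Real.log x := Real.log_le_log (by norm_num) (by exact_mod_cast hx)
    have h9 := Real.log_two_gt_d9
    linarith

private theorem natlog_le (x : ℕ) (hx : 2 ≤ x) : ((Nat.log 2 x : ℕ) : ℝ) + 1 ≤ 4 * Real.log x := by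
  have h0 := (log_le x hx).2.2
  have hx0 : (0 : ℝ) < x := by exact_mod_cast (by omega : 0 < x)
  have h1 : 2 ^ (Nat.log 2 x) ≤ x := Nat.pow_log_le_self 2 (by omega)
  have h2 : ((2 : ℝ)) ^ (Nat.log 2 x) ≤ x := by exact_mod_cast h1
  have h3 : Real.log ((2 : ℝ) ^ (Nat.log 2 x)) ≤ Real.log x := Real.log_le_log (by positivity) h2
  rw [Real.log_pow] at h3
  have h9 := Real.log_two_gt_d9
  have h4 : (0 : ℝ) ≤ ((Nat.log 2 x : ℕ) : ℝ) := Nat.cast_nonneg _
  nlinarith

private theorem pi_le : ∃ C : ℝ, 1 ≤ C ∧ ∀ x : ℕ, 2 ≤ x →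
    (Nat.primeCounting x : ℝ) ≤ C * (x / Real.log x) := by
  have h := Chebyshev.eventually_primeCounting_le (ε := 1) one_pos
  obtain ⟨x0, h0⟩ := Filter.eventually_atTop.1 h
  set M : ℝ := max x0 3 with hM
  have hM3 : (3 : ℝ) ≤ M := le_max_right _ _
  have hlM : 0 ≤ Real.log M := Real.log_nonneg (by linarith)
  have hl4 : 0 ≤ Real.log 4 := Real.log_nonneg (by norm_num)
  refine ⟨Real.log 4 + 1 + Real.log M, by linarith, fun x hx => ?_⟩
  have hx0 : (0 : ℝ) < x := by exact_mod_cast (by omega : 0 < x)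
  have hl : 0 < Real.log x := by have := (log_le x hx).2.2; linarith
  have hq : 0 ≤ (x : ℝ) / Real.log x := by positivity
  rcases le_or_gt x0 (x : ℝ) with hle | hlt
  · have h1 := h0 (x : ℝ) hle
    rw [Nat.floor_natCast, mul_div_assoc] at h1
    refine h1.trans ?_
    nlinarith
  · have hxM : (x : ℝ) ≤ M := hlt.le.trans (le_max_left _ _)
    have h2 : (Nat.primeCounting x : ℝ) ≤ x := by
      have : Nat.primeCounting x ≤ x := by
        rw [Nat.primeCounting, Nat.primeCounting', Nat.count_eq_card_filter_range]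
        have h3 : (range (x + 1)).filter Nat.Prime ⊆ (range (x + 1)).erase 0 := by
          intro p hp
          rw [Finset.mem_filter] at hp
          exact Finset.mem_erase.2 ⟨hp.2.ne_zero, hp.1⟩
        refine (Finset.card_le_card h3).trans ?_
        rw [Finset.card_erase_of_mem (Finset.mem_range.2 (by omega)), Finset.card_range]
        omega
      exact_mod_cast this
    have h4 : Real.log x ≤ Real.log M := Real.log_le_log hx0 hxM
    have h5 : (x : ℝ) = Real.log x * (x / Real.log x) := by field_simp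
    have h6 : Real.log x * (x / Real.log x) ≤ Real.log M * (x / Real.log x) := by gcongr
    nlinarith

private theorem sq_bound {s n : ℕ} (c r : ℝ) (hr : 0 ≤ r) (hc : 0 ≤ c) (hs : s = Nat.sqrt n)
    (h : (n : ℝ) ≤ (c * r) ^ 2) : (s : ℝ) ≤ c * r := by
  have h1 : s ^ 2 ≤ n := by rw [hs]; exact Nat.sqrt_le' n
  have h2 : (s : ℝ) ^ 2 ≤ (c * r) ^ 2 := le_trans (by exact_mod_cast h1) h
  exact le_of_sq_le_sq h2 (by positivity)

/-- A finite set containing the prime powers up to `x`. -/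
private def V (x : ℕ) : Finset ℕ :=
  (range (x + 1)).filter Nat.Prime ∪
    ((range (Nat.sqrt x + 1)) ×ˢ (range (Nat.log 2 x + 1))).image (fun p => p.1 ^ p.2)

private theorem mem_V {x p i : ℕ} (hp : p.Prime) (hi : 1 ≤ i) (h : p ^ i ≤ x) : p ^ i ∈ V x := by
  rw [V, Finset.mem_union]
  rcases Nat.lt_or_ge i 2 with h3 | h3
  · have hi1 : i = 1 := by omega
    subst hi1
    rw [pow_one] at h ⊢
    left
    exact Finset.mem_filter.2 ⟨Finset.mem_range.2 (by omega), hp⟩
  · right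
    refine Finset.mem_image.2 ⟨(p, i), ?_, rfl⟩
    have h4 : p ^ 2 ≤ x := (Nat.pow_le_pow_right hp.pos h3).trans h
    have h5 : 2 ^ i ≤ x := (Nat.pow_le_pow_left hp.two_le i).trans h
    have h6 := Nat.le_sqrt'.2 h4
    have h7 := Nat.le_log_of_pow_le (by norm_num : 1 < 2) h5
    rw [Finset.mem_product, Finset.mem_range, Finset.mem_range]
    exact ⟨by show p < _; omega, by show i < _; omega⟩

private theorem V_card : ∃ C : ℝ, 1 ≤ C ∧ ∀ x : ℕ, 2 ≤ x →
    ((V x).card : ℝ) ≤ C * (x / Real.log x) := by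
  obtain ⟨C, hC, h⟩ := pi_le
  refine ⟨C + 240, by linarith, fun x hx => ?_⟩
  have hx0 : (0 : ℝ) < x := by exact_mod_cast (by omega : 0 < x)
  have hx1 : (1 : ℝ) ≤ x := by exact_mod_cast (by omega : 1 ≤ x)
  obtain ⟨l1, l2, l3⟩ := log_le x hx
  have hl : 0 < Real.log x := by linarith
  have hpi : ((range (x + 1)).filter Nat.Prime).card = Nat.primeCounting x := by
    rw [Nat.primeCounting, Nat.primeCounting', Nat.count_eq_card_filter_range]
  have h2 : (V x).card ≤ (Nat.primeCounting x + (Nat.sqrt x + 1) * (Nat.log 2 x + 1)) := by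
    refine (Finset.card_union_le _ _).trans (Nat.add_le_add hpi.le ?_)
    exact Finset.card_image_le.trans (by
        rw [Finset.card_product, Finset.card_range, Finset.card_range])
  have h3 : ((V x).card : ℝ) ≤ (Nat.primeCounting x +
      (((Nat.sqrt x : ℕ) : ℝ) + 1) * (((Nat.log 2 x : ℕ) : ℝ) + 1)) := by
    exact_mod_cast h2
  have h4 := natlog_le x hx
  have h5 := h x hx
  set r : ℝ := √x with hr
  have hr1 : 1 ≤ r := by rw [hr, Real.one_le_sqrt]; exact hx1
  have hr2 : r ^ 2 = x := Real.sq_sqrt hx0.le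
  have h6 : ((Nat.sqrt x : ℕ) : ℝ) ≤ 1 * r := sq_bound 1 r (by linarith) (by norm_num) rfl (by
    rw [one_mul, hr2])
  have h7 : (((Nat.sqrt x : ℕ) : ℝ) + 1) * (((Nat.log 2 x : ℕ) : ℝ) + 1) ≤
      (2 * r) * (4 * Real.log x) := by
    gcongr
    linarith
  set Q : ℝ := x / Real.log x with hQ
  have hQx : Q * Real.log x = x := by rw [hQ]; field_simp
  have hQ0 : 0 < Q := by positivity
  have e2 : r * Real.log x ≤ 16 * Q := by
    have : r * Real.log x * Real.log x ≤ 16 * Q * Real.log x := by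
      have e3 : r * (Real.log x) ^ 2 ≤ r * (16 * r) := by gcongr
      nlinarith
    exact le_of_mul_le_mul_right this hl
  nlinarith

/-- The largest `k` with `k ^ 3 ≤ 6 x`. -/
private def cb (x : ℕ) : ℕ := Nat.findGreatest (fun k => k ^ 3 ≤ 6 * x) (6 * x)

private theorem le_cb {x k : ℕ} (h : k ^ 3 ≤ 6 * x) : k ≤ cb x := by
  refine Nat.le_findGreatest ?_ h
  exact (Nat.le_self_pow (by norm_num) k).trans h

private theorem cb_pow (x : ℕ) : cb x ^ 3 ≤ 6 * x := by
  have := @Nat.findGreatest_spec 0 (fun k => k ^ 3 ≤ 6 * x) _ (6 * x) (Nat.zero_le _) (by simp)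
  exact this

/-- The set of the figurate primes up to `x` that are not primes. -/
def R (x : ℕ) : Set ℕ := {a | Fig a ∧ ¬ a.Prime ∧ a ≤ x}

private def W (x : ℕ) : Finset ℕ :=
  ((({1} : Finset ℕ) ∪ (V (2 * Nat.sqrt x + 3)).image (fun q => q ^ 2)) ∪
    (V (2 * Nat.sqrt x + 3)).image (fun q => q.choose 2)) ∪
    (((range (cb x + 7)) ×ˢ (range (Nat.log 2 x + 1))).image (fun p => p.1 ^ p.2) ∪
      ((range (cb x + 7)) ×ˢ (range (Nat.log 2 x + 1))).image (fun p => p.1.choose p.2) ∪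
      (range (cb x + 7)).image (fun m => m.choose 3))

private theorem R_sub (x : ℕ) : R x ⊆ ↑(W x) := by
  rintro a ⟨ha, hnp, hax⟩
  rw [Finset.mem_coe, W, Finset.mem_union, Finset.mem_union, Finset.mem_union, Finset.mem_union,
    Finset.mem_union]
  rcases ha with rfl | ⟨p, i, j, hp, hi, hj, hjp, rfl⟩
  · left; left; left; exact Finset.mem_singleton_self _
  rcases Nat.lt_or_ge j 2 with h2 | h2
  · have hj1 : j = 1 := by omega
    subst hj1
    rw [Nat.choose_one_right] at hax hnp ⊢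
    rcases Nat.lt_or_ge i 2 with h3 | h3
    · have hi1 : i = 1 := by omega
      subst hi1
      rw [pow_one] at hnp
      exact absurd hp hnp
    rcases Nat.lt_or_ge i 3 with h4 | h4
    · have hi2 : i = 2 := by omega
      subst hi2
      left; left; right
      refine Finset.mem_image.2 ⟨p, ?_, rfl⟩
      have h5 := Nat.le_sqrt'.2 hax
      have h6 := mem_V (x := 2 * Nat.sqrt x + 3) hp le_rfl (by rw [pow_one]; omega)
      rwa [pow_one] at h6
    · right; left; left
      refine Finset.mem_image.2 ⟨(p, i), ?_, rfl⟩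
      have h5 : p ^ 3 ≤ 6 * x := (Nat.pow_le_pow_right hp.pos h4).trans (by omega)
      have h6 := le_cb h5
      have h7 : 2 ^ i ≤ x := (Nat.pow_le_pow_left hp.two_le i).trans hax
      have h8 := Nat.le_log_of_pow_le (by norm_num : 1 < 2) h7
      rw [Finset.mem_product, Finset.mem_range, Finset.mem_range]
      exact ⟨by show p < _; omega, by show i < _; omega⟩
  rcases Nat.lt_or_ge j 3 with h3 | h3
  · have hj2 : j = 2 := by omega
    subst hj2
    left; right
    refine Finset.mem_image.2 ⟨p ^ i, mem_V hp hi ?_, rfl⟩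
    have h1 := pow_choose (p ^ i) 2
    have h4 : (p ^ i + 1 - 2) ^ 2 ≤ 2 * x := h1.trans (by
      have : Nat.factorial 2 = 2 := rfl
      rw [this]; omega)
    obtain ⟨s, hs⟩ : ∃ s, s = Nat.sqrt x := ⟨_, rfl⟩
    have h5 : x < (s + 1) ^ 2 := by rw [hs]; exact Nat.lt_succ_sqrt' x
    have h6 : (p ^ i + 1 - 2) ^ 2 < (2 * (s + 1)) ^ 2 := by nlinarith
    have h7 := lt_of_pow_lt_pow_left₀ 2 (Nat.zero_le _) h6
    rw [← hs]
    omega
  rcases Nat.lt_or_ge j 4 with h4 | h4
  · have hj3 : j = 3 := by omega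
    subst hj3
    right; right
    refine Finset.mem_image.2 ⟨p ^ i, ?_, rfl⟩
    rw [Finset.mem_range]
    have h1 := pow_choose (p ^ i) 3
    have h2 : (p ^ i + 1 - 3) ^ 3 ≤ 6 * x := h1.trans (by
      have : Nat.factorial 3 = 6 := rfl
      rw [this]; omega)
    have h6 := le_cb h2
    omega
  · right; left; right
    refine Finset.mem_image.2 ⟨(p ^ i, j), ?_, rfl⟩
    have h0 := (choose_mono h4 hjp).trans hax
    have h1 := pow_choose (p ^ i) 4
    have h2 : (p ^ i + 1 - 4) ^ 4 ≤ 24 * x := h1.trans (by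
      have : Nat.factorial 4 = 24 := rfl
      rw [this]; omega)
    have h5 : p ^ i < cb x + 7 := by
      obtain ⟨u, hu⟩ : ∃ u, u = p ^ i + 1 - 4 := ⟨_, rfl⟩
      rw [← hu] at h2
      rcases Nat.lt_or_ge u 4 with h | h
      · omega
      · have h8 : 4 * u ^ 3 ≤ u ^ 4 := by
          rw [show u ^ 4 = u * u ^ 3 by ring]
          exact Nat.mul_le_mul_right _ h
        have h9 := le_cb (x := x) (k := u) (by omega)
        omega
    have h7 := (two_pow_le_choose j _ hjp).trans hax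
    have h8 := Nat.le_log_of_pow_le (by norm_num : 1 < 2) h7
    rw [Finset.mem_product, Finset.mem_range, Finset.mem_range]
    exact ⟨by show p ^ i < _; omega, by show j < _; omega⟩

private theorem W_card : ∃ C : ℝ, 1 ≤ C ∧ ∀ x : ℕ, 2 ≤ x →
    ((W x).card : ℝ) ≤ C * (√x / Real.log x) := by
  obtain ⟨C, hC, h⟩ := V_card
  refine ⟨20 * C + 16000, by linarith, fun x hx => ?_⟩
  have hx0 : (0 : ℝ) < x := by exact_mod_cast (by omega : 0 < x)
  have hx1 : (1 : ℝ) ≤ x := by exact_mod_cast (by omega : 1 ≤ x)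
  obtain ⟨l1, l2, l3⟩ := log_le x hx
  have hl : 0 < Real.log x := by linarith
  obtain ⟨y, hy⟩ : ∃ y, y = 2 * Nat.sqrt x + 3 := ⟨_, rfl⟩
  have hV := h y (by omega)
  set r : ℝ := √x with hr
  have hr1 : 1 ≤ r := by rw [hr, Real.one_le_sqrt]; exact hx1
  have hr2 : r ^ 2 = x := Real.sq_sqrt hx0.le
  have h6 : ((Nat.sqrt x : ℕ) : ℝ) ≤ 1 * r := sq_bound 1 r (by linarith) (by norm_num) rfl (by
    rw [one_mul, hr2])
  have hy5 : (y : ℝ) ≤ 5 * r := by
    rw [hy]; push_cast; linarith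
  have hyr : r ≤ y := by
    have h7 : x < (Nat.sqrt x + 1) ^ 2 := Nat.lt_succ_sqrt' x
    have h8 : (x : ℝ) < ((Nat.sqrt x : ℕ) + 1) ^ 2 := by exact_mod_cast h7
    have h9 : r ^ 2 ≤ (((Nat.sqrt x : ℕ) : ℝ) + 1) ^ 2 := by rw [hr2]; exact h8.le
    have h10 : r ≤ ((Nat.sqrt x : ℕ) : ℝ) + 1 := le_of_sq_le_sq h9 (by positivity)
    rw [hy]; push_cast
    have : (0 : ℝ) ≤ ((Nat.sqrt x : ℕ) : ℝ) := Nat.cast_nonneg _
    linarith
  have hlogy : Real.log x / 2 ≤ Real.log y := by
    have h7 : Real.log x = 2 * Real.log r := by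
      rw [← hr2, Real.log_pow]; norm_num
    have h8 : Real.log r ≤ Real.log y := Real.log_le_log (by linarith) hyr
    linarith
  have hV' : ((V y).card : ℝ) ≤ 10 * C * (r / Real.log x) := by
    refine hV.trans ?_
    have h7 : (y : ℝ) / Real.log y ≤ (5 * r) / (Real.log x / 2) := by
      gcongr
    calc C * ((y : ℝ) / Real.log y) ≤ C * ((5 * r) / (Real.log x / 2)) := by gcongr
      _ = 10 * C * (r / Real.log x) := by ring
  -- the cube root
  set w : ℝ := (x : ℝ) ^ (1 / 3 : ℝ) with hw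
  have hw1 : 1 ≤ w := Real.one_le_rpow hx1 (by norm_num)
  have hw3 : w ^ 3 = x := by
    rw [hw, ← Real.rpow_natCast, ← Real.rpow_mul hx0.le]; norm_num
  have hc : ((cb x : ℕ) : ℝ) ≤ 2 * w := by
    have h7 : ((cb x : ℕ) : ℝ) ^ 3 ≤ 6 * x := by exact_mod_cast cb_pow x
    have h8 : ((cb x : ℕ) : ℝ) ^ 3 ≤ (2 * w) ^ 3 := by
      rw [mul_pow, hw3]; linarith
    exact le_of_pow_le_pow_left₀ (by norm_num) (by positivity) h8
  have hlog12 : Real.log x ≤ 12 * (x : ℝ) ^ (1 / 12 : ℝ) := by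
    have := Real.log_le_rpow_div hx0.le (by norm_num : (0 : ℝ) < 1 / 12)
    calc Real.log x ≤ (x : ℝ) ^ (1 / 12 : ℝ) / (1 / 12) := this
      _ = 12 * (x : ℝ) ^ (1 / 12 : ℝ) := by ring
  have hwr : w * (Real.log x) ^ 2 ≤ 144 * r := by
    have h7 : (Real.log x) ^ 2 ≤ (12 * (x : ℝ) ^ (1 / 12 : ℝ)) ^ 2 := by gcongr
    have h8 : w * ((x : ℝ) ^ (1 / 12 : ℝ)) ^ 2 = r := by
      rw [hw, hr, Real.sqrt_eq_rpow, ← Real.rpow_natCast, ← Real.rpow_mul hx0.le,
        ← Real.rpow_add hx0]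
      norm_num
    calc w * (Real.log x) ^ 2 ≤ w * (12 * (x : ℝ) ^ (1 / 12 : ℝ)) ^ 2 := by gcongr
      _ = 144 * (w * ((x : ℝ) ^ (1 / 12 : ℝ)) ^ 2) := by ring
      _ = 144 * r := by rw [h8]
  have h4 := natlog_le x hx
  have hL0 : (0 : ℝ) ≤ ((Nat.log 2 x : ℕ) : ℝ) := Nat.cast_nonneg _
  have hcl : (((cb x : ℕ) : ℝ) + 7) * (((Nat.log 2 x : ℕ) : ℝ) + 1) ≤
      5184 * (r / Real.log x) := by
    have h7 : (((cb x : ℕ) : ℝ) + 7) * (((Nat.log 2 x : ℕ) : ℝ) + 1) ≤
        (9 * w) * (4 * Real.log x) := by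
      gcongr
      linarith
    refine h7.trans ?_
    rw [← mul_div_assoc, le_div_iff₀ hl]
    nlinarith
  have hcard : (W x).card ≤ (1 + (V y).card + (V y).card) +
      ((cb x + 7) * (Nat.log 2 x + 1) + (cb x + 7) * (Nat.log 2 x + 1) + (cb x + 7)) := by
    unfold W
    rw [← hy]
    refine (Finset.card_union_le _ _).trans (Nat.add_le_add ?_ ?_)
    · refine (Finset.card_union_le _ _).trans (Nat.add_le_add ?_ Finset.card_image_le)
      refine (Finset.card_union_le _ _).trans (Nat.add_le_add ?_ Finset.card_image_le)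
      rw [Finset.card_singleton]
    · refine (Finset.card_union_le _ _).trans (Nat.add_le_add ?_ ?_)
      · refine (Finset.card_union_le _ _).trans (Nat.add_le_add ?_ ?_)
        · exact Finset.card_image_le.trans (by
            rw [Finset.card_product, Finset.card_range, Finset.card_range])
        · exact Finset.card_image_le.trans (by
            rw [Finset.card_product, Finset.card_range, Finset.card_range])
      · exact Finset.card_image_le.trans (by rw [Finset.card_range])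
  have hcard' : ((W x).card : ℝ) ≤ (1 + (V y).card + (V y).card) +
      ((((cb x : ℕ) : ℝ) + 7) * (((Nat.log 2 x : ℕ) : ℝ) + 1) +
        (((cb x : ℕ) : ℝ) + 7) * (((Nat.log 2 x : ℕ) : ℝ) + 1) + (((cb x : ℕ) : ℝ) + 7)) := by
    exact_mod_cast hcard
  have hc0 : (0 : ℝ) ≤ ((cb x : ℕ) : ℝ) := Nat.cast_nonneg _
  have h11 : (((cb x : ℕ) : ℝ) + 7) ≤ (((cb x : ℕ) : ℝ) + 7) * (((Nat.log 2 x : ℕ) : ℝ) + 1) := by
    nlinarith
  have h12 : (1 : ℝ) ≤ 2 * (r / Real.log x) := by
    rw [← mul_div_assoc, le_div_iff₀ hl]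
    linarith
  have hq : 0 ≤ r / Real.log x := by positivity
  nlinarith

private theorem ncard_sum {A B : Finset ℕ} {X : Set ℕ} (h : ∀ n ∈ X, ∃ a ∈ A, ∃ b ∈ B, a + b = n) :
    (X.ncard : ℝ) ≤ (A.card : ℝ) * B.card := by
  have h1 : X ⊆ ↑((A ×ˢ B).image (fun p => p.1 + p.2)) := by
    intro n hn
    obtain ⟨a, ha, b, hb, hab⟩ := h n hn
    exact Finset.mem_coe.2 (Finset.mem_image.2 ⟨(a, b), Finset.mem_product.2 ⟨ha, hb⟩, hab⟩)
  have h2 : X.ncard ≤ ((A ×ˢ B).image (fun p => p.1 + p.2)).card := by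
    rw [← Set.ncard_coe_finset]
    exact Set.ncard_le_ncard h1 (Finset.finite_toSet _)
  have h3 : X.ncard ≤ A.card * B.card := h2.trans (Finset.card_image_le.trans (by
    rw [Finset.card_product]))
  exact_mod_cast h3

theorem main : ∃ C : ℝ, 0 < C ∧ ∀ N : ℕ, 2 ≤ N →
    ({n : ℕ | n ≤ N ∧ ∃ a b, Fig a ∧ Fig b ∧ a + b = n ∧ ¬ a.Prime ∧ ¬ b.Prime}.ncard : ℝ) ≤
      C * (N / (Real.log N) ^ 2) := by
  obtain ⟨C, hC, h⟩ := W_card
  refine ⟨C * C, by positivity, fun N hN => ?_⟩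
  have hl : 0 < Real.log N := by have := (log_le N hN).2.2; linarith
  have hN' := h N hN
  refine (ncard_sum (A := W N) (B := W N) ?_).trans ?_
  · rintro n ⟨hn, a, b, ha, hb, hab, hap, hbp⟩
    exact ⟨a, Finset.mem_coe.1 (R_sub N ⟨ha, hap, by omega⟩), b,
      Finset.mem_coe.1 (R_sub N ⟨hb, hbp, by omega⟩), hab⟩
  · have h1 : ((W N).card : ℝ) * (W N).card ≤ (C * (√N / Real.log N)) * (C * (√N / Real.log N)) := by
      gcongr
    refine h1.trans (le_of_eq ?_)
    have h2 : √(N : ℝ) * √N = N := Real.mul_self_sqrt (Nat.cast_nonneg N)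
    calc (C * (√N / Real.log N)) * (C * (√N / Real.log N))
        = C * C * ((√(N : ℝ) * √N) / (Real.log N) ^ 2) := by ring
      _ = C * C * (N / (Real.log N) ^ 2) := by rw [h2]

end FigComp
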