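import Pool.Agent.Lib.MP_de44a4_nt.Defs

/-! # MP_de44a4_nt: numbers which are sums of two figurate primes but not of two prime powers -/

set_option autoImplicit false

namespace FigSum

/-- The primes of the covering congruences. -/
def cps : List ℕ := [3, 5, 7, 13, 17, 241]

private theorem chk : ∀ c ∈ cps, ∀ r < 24, ∀ t < 240,
    (2 ^ r + c ^ (t + 1)) % 5592405 ≠ 2036812 := by
  decide +kernel

private theorem cov : ∀ r < 24, ∃ c ∈ cps, 2 ^ r % c = 2036812 % c := by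
  decide +kernel

private theorem per : ∀ c ∈ cps, c ^ 241 % 5592405 = c % 5592405 := by
  decide +kernel

private theorem cdvd : ∀ c ∈ cps, c ∣ 5592405 := by
  decide +kernel

private theorem two_per (k : ℕ) : 2 ^ k ≡ 2 ^ (k % 24) [MOD 5592405] := by
  conv_lhs => rw [← Nat.div_add_mod k 24]
  rw [pow_add, pow_mul]
  have h : (2 ^ 24) ^ (k / 24) ≡ 1 ^ (k / 24) [MOD 5592405] := by
    apply Nat.ModEq.pow
    decide +kernel
  rw [one_pow] at h
  simpa using h.mul_right (2 ^ (k % 24))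

private theorem c_per {c : ℕ} (hc : c ∈ cps) (q t : ℕ) :
    c ^ (240 * q + (t + 1)) ≡ c ^ (t + 1) [MOD 5592405] := by
  induction q with
  | zero => simpa using Nat.ModEq.refl _
  | succ q ih =>
    have h : c ^ 241 ≡ c [MOD 5592405] := per c hc
    have e1 : c ^ (240 * (q + 1) + (t + 1)) = c ^ (240 * q + t) * c ^ 241 := by
      rw [← pow_add]
      congr 1
      ring
    have e2 : c ^ (240 * q + (t + 1)) = c ^ (240 * q + t) * c := by
      rw [← pow_succ]
      congr 1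
    rw [e1]
    refine (h.mul_left _).trans ?_
    rw [← e2]
    exact ih

private theorem prime_cps : ∀ c ∈ cps, c.Prime := by
  intro c hc
  simp only [cps, List.mem_cons, List.not_mem_nil, or_false] at hc
  rcases hc with h | h | h | h | h | h <;> subst h <;> norm_num

/-- No `n ≡ 7629217` modulo `11184810` is a power of two plus `1` or a prime power. -/
theorem no_two {n k x : ℕ} (hn : n % 11184810 = 7629217) (hx : x = 1 ∨ IsPrimePow x)
    (h : 2 ^ k + x = n) : False := by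
  have hn' : n % 5592405 = 2036812 := by omega
  obtain ⟨c, hc, hcr⟩ := cov (k % 24) (Nat.mod_lt _ (by norm_num))
  have h1 : 2 ^ k ≡ 2 ^ (k % 24) [MOD c] := (two_per k).of_dvd (cdvd c hc)
  have h2 : n ≡ 2036812 [MOD c] := Nat.ModEq.of_dvd (cdvd c hc) (by
    show n % 5592405 = 2036812 % 5592405
    rw [hn'])
  have h3 : 2 ^ k ≡ n [MOD c] := h1.trans ((show 2 ^ (k % 24) ≡ 2036812 [MOD c] from hcr).trans h2.symm)
  have h4 : 2 ^ k + 0 ≡ 2 ^ k + x [MOD c] := by
    rw [add_zero, h]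
    exact h3
  have h5 : 0 ≡ x [MOD c] := Nat.ModEq.add_left_cancel' _ h4
  have hcx : c ∣ x := (Nat.modEq_zero_iff_dvd).1 h5.symm
  have hcp := prime_cps c hc
  rcases hx with hx | hx
  · rw [hx] at hcx
    exact hcp.one_lt.ne' (Nat.dvd_one.1 hcx)
  · obtain ⟨p, i, hp, hi, rfl⟩ := (isPrimePow_nat_iff x).1 hx
    have hcpp : c = p := (Nat.prime_dvd_prime_iff_eq hcp hp).1 (hcp.dvd_of_dvd_pow hcx)
    subst hcpp
    have ht : i = 240 * ((i - 1) / 240) + ((i - 1) % 240 + 1) := by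
      have := Nat.div_add_mod (i - 1) 240
      omega
    have h6 : c ^ i ≡ c ^ ((i - 1) % 240 + 1) [MOD 5592405] := by
      conv_lhs => rw [ht]
      exact c_per hc _ _
    have h7 : 2 ^ k + c ^ i ≡ 2 ^ (k % 24) + c ^ ((i - 1) % 240 + 1) [MOD 5592405] :=
      (two_per k).add h6
    have h8 := chk c hc (k % 24) (Nat.mod_lt _ (by norm_num)) ((i - 1) % 240)
      (Nat.mod_lt _ (by norm_num))
    apply h8
    rw [← show (2 ^ k + c ^ i) % 5592405 = (2 ^ (k % 24) + c ^ ((i - 1) % 240 + 1)) % 5592405 from h7,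
      h, hn']

theorem even_pow {a : ℕ} (ha : a = 1 ∨ IsPrimePow a) (h2 : 2 ∣ a) : ∃ k, a = 2 ^ k := by
  rcases ha with ha | ha
  · exact ⟨0, by rw [ha, pow_zero]⟩
  · obtain ⟨p, i, hp, hi, rfl⟩ := (isPrimePow_nat_iff a).1 ha
    have : 2 = p := (Nat.prime_dvd_prime_iff_eq Nat.prime_two hp).1 (Nat.prime_two.dvd_of_dvd_pow h2)
    exact ⟨i, by rw [this]⟩

theorem not_sum {n : ℕ} (hn : n % 11184810 = 7629217) :
    ¬ ∃ a b, (a = 1 ∨ IsPrimePow a) ∧ (b = 1 ∨ IsPrimePow b) ∧ a + b = n := by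
  rintro ⟨a, b, ha, hb, hab⟩
  have hodd : n % 2 = 1 := by omega
  rcases Nat.even_or_odd a with hae | hao
  · obtain ⟨k, rfl⟩ := even_pow ha hae.two_dvd
    exact no_two hn hb hab
  · have hbe : 2 ∣ b := by
      have := Nat.odd_iff.1 hao
      omega
    obtain ⟨k, rfl⟩ := even_pow hb hbe
    exact no_two hn ha (by rw [add_comm]; exact hab)

theorem fig_prime {q : ℕ} (hq : q.Prime) : Fig q :=
  Or.inr ⟨q, 1, 1, hq, le_rfl, le_rfl, by rw [pow_one]; exact hq.two_le, by simp⟩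

theorem fig_six : Fig 6 :=
  Or.inr ⟨2, 2, 2, Nat.prime_two, by norm_num, by norm_num, by norm_num, by decide⟩

theorem inf_sum : {n : ℕ | n % 11184810 = 7629217 ∧ ∃ a b, Fig a ∧ Fig b ∧ a + b = n}.Infinite := by
  apply Set.infinite_of_forall_exists_gt
  intro N
  obtain ⟨q, hqN, hq, hqm⟩ := Nat.forall_exists_prime_gt_and_modEq N (q := 11184810) (a := 7629211)
    (by norm_num) (by norm_num)
  refine ⟨q + 6, ⟨?_, q, 6, fig_prime hq, fig_six, rfl⟩, by omega⟩
  have : q % 11184810 = 7629211 % 11184810 := hqm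
  omega

theorem row {p i j : ℕ} (hp : p.Prime) (hi : 1 ≤ i) (hj : 1 ≤ j) (hj2 : 2 * j ≤ p ^ i + 1) :
    ∃ a b, Fig a ∧ Fig b ∧ a + b = (p ^ i + 1).choose j := by
  obtain ⟨l, rfl⟩ : ∃ l, j = l + 1 := ⟨j - 1, by omega⟩
  have hpi : 2 ≤ p ^ i := hp.two_le.trans (Nat.le_self_pow (by omega) p)
  refine ⟨(p ^ i).choose l, (p ^ i).choose (l + 1), ?_, ?_, (Nat.choose_succ_succ _ _).symm⟩
  · rcases Nat.eq_zero_or_pos l with h0 | h0
    · subst h0
      left
      exact Nat.choose_zero_right _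
    · exact Or.inr ⟨p, i, l, hp, hi, h0, by omega, rfl⟩
  · rcases Nat.lt_or_ge (p ^ i) (2 * (l + 1)) with h | h
    · have e : (p ^ i).choose (l + 1) = (p ^ i).choose l :=
        Nat.choose_symm_of_eq_add (by omega)
      rw [e]
      have hl : 1 ≤ l := by omega
      exact Or.inr ⟨p, i, l, hp, hi, hl, by omega, rfl⟩
    · exact Or.inr ⟨p, i, l + 1, hp, hi, by omega, h, rfl⟩

end FigSum
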