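import Pool.Agent.Lib.MP_de44a4_nt.Cover

/-! # MP_de44a4_nt: few numbers of the progression are a power of two plus a figurate prime -/

set_option autoImplicit false

namespace FigSum

private theorem cmono {m i j : ℕ} (hij : i ≤ j) (hj : 2 * j ≤ m) :
    m.choose i ≤ m.choose j := by
  induction j, hij using Nat.le_induction with
  | base => exact le_rfl
  | succ j hij ih =>
    exact (ih (by omega)).trans (Nat.choose_le_succ_of_lt_half_left (by omega))

private theorem two_pow_le_cb (j : ℕ) : 2 ^ j ≤ j.centralBinom := by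
  induction j with
  | zero => simp
  | succ j ih =>
    have h := Nat.succ_mul_centralBinom_succ j
    have h2 : (j + 1) * (2 * j.centralBinom) ≤ (j + 1) * (j + 1).centralBinom := by
      rw [h]
      nlinarith [Nat.zero_le (j * j.centralBinom)]
    have h3 := Nat.le_of_mul_le_mul_left h2 (Nat.succ_pos j)
    calc 2 ^ (j + 1) = 2 * 2 ^ j := by ring
      _ ≤ 2 * j.centralBinom := by omega
      _ ≤ _ := h3

private theorem two_pow_le_choose {m j : ℕ} (h : 2 * j ≤ m) : 2 ^ j ≤ m.choose j := by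
  refine (two_pow_le_cb j).trans ?_
  rw [Nat.centralBinom_eq_two_mul_choose]
  exact Nat.choose_le_choose j h

private theorem top_le {m j N : ℕ} (hj : 2 ≤ j) (h : 2 * j ≤ m) (hN : m.choose j ≤ N) :
    m < Nat.sqrt (2 * N) + 2 := by
  have h1 : m.choose 2 ≤ N := (cmono hj h).trans hN
  have h2 : m * (m - 1) = 2 * m.choose 2 := by
    rw [Nat.choose_two_right]
    have := Nat.even_mul_pred_self m
    obtain ⟨c, hc⟩ := this
    omega
  have h3 : (m - 1) * (m - 1) ≤ 2 * N := by
    calc (m - 1) * (m - 1) ≤ m * (m - 1) := Nat.mul_le_mul_right _ (Nat.sub_le _ _)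
      _ = 2 * m.choose 2 := h2
      _ ≤ 2 * N := by omega
  have h4 : m - 1 ≤ Nat.sqrt (2 * N) := Nat.le_sqrt.2 h3
  omega

/-- At most `(√(2N) + 2) (log₂ N + 1)²` numbers `n ≤ N` in the progression are a power of two plus a
figurate prime. -/
theorem few_pow (N : ℕ) :
    {n : ℕ | n ≤ N ∧ n % 11184810 = 7629217 ∧ ∃ k b, Fig b ∧ 2 ^ k + b = n}.ncard ≤
      (Nat.sqrt (2 * N) + 2) * (Nat.log 2 N + 1) ^ 2 := by
  classical
  set A : Finset (ℕ × ℕ × ℕ) := Finset.range (Nat.log 2 N + 1) ×ˢ
    (Finset.range (Nat.sqrt (2 * N) + 2) ×ˢ Finset.range (Nat.log 2 N + 1)) with hA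
  set B : Finset ℕ := A.image (fun x => 2 ^ x.1 + x.2.1.choose x.2.2) with hB
  have hsub : {n : ℕ | n ≤ N ∧ n % 11184810 = 7629217 ∧ ∃ k b, Fig b ∧ 2 ^ k + b = n} ⊆
      (B : Set ℕ) := by
    rintro n ⟨hn, hm, k, b, hb, hkb⟩
    have hb1 : b ≠ 1 := fun h => no_two hm (Or.inl h) hkb
    rcases hb with hb | ⟨p, i, j, hp, hi, hj, hj2, rfl⟩
    · exact absurd hb hb1
    · have hj1 : j ≠ 1 := by
        intro h
        subst h
        apply no_two hm (Or.inr ?_) hkb
        rw [Nat.choose_one_right]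
        exact (isPrimePow_nat_iff _).2 ⟨p, i, hp, hi, rfl⟩
      have hj3 : 2 ≤ j := by omega
      have hc : (p ^ i).choose j ≤ N := (Nat.le_add_left _ (2 ^ k)).trans (hkb.le.trans hn)
      have hk : 2 ^ k ≤ N := (Nat.le_add_right _ _).trans (hkb.le.trans hn)
      have l1 : k < Nat.log 2 N + 1 := Nat.lt_succ_of_le (Nat.le_log_of_pow_le (by norm_num) hk)
      have l2 : j < Nat.log 2 N + 1 := Nat.lt_succ_of_le
        (Nat.le_log_of_pow_le (by norm_num) ((two_pow_le_choose hj2).trans hc))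
      have l3 := top_le hj3 hj2 hc
      rw [hB, Finset.coe_image]
      refine ⟨(k, p ^ i, j), ?_, hkb⟩
      rw [hA]
      simp only [Finset.coe_product, Set.mem_prod, Finset.mem_coe, Finset.mem_range]
      exact ⟨l1, l3, l2⟩
  calc _ ≤ (B : Set ℕ).ncard := Set.ncard_le_ncard hsub (Finset.finite_toSet B)
    _ = B.card := Set.ncard_coe_finset B
    _ ≤ A.card := Finset.card_image_le
    _ = _ := by
      rw [hA, Finset.card_product, Finset.card_product, Finset.card_range, Finset.card_range]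
      ring

end FigSum
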