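import Mathlib

/-! # MP_de44a4_nt: figurate primes (helper34): definition -/

namespace FigSum

/-- `a` is a figurate prime: `1` or a binomial coefficient `C(p^i, j)` with `p` prime, `i ≥ 1` and
`1 ≤ j ≤ p^i / 2`. -/
def Fig (a : ℕ) : Prop :=
  a = 1 ∨ ∃ p i j : ℕ, p.Prime ∧ 1 ≤ i ∧ 1 ≤ j ∧ 2 * j ≤ p ^ i ∧ a = (p ^ i).choose j

end FigSum
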